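import Pool.Agent.HF.Stmts
import Pool.Agent.Helper92_CD.Mid

/-!
# Squad HF: module MIDH
-/

namespace Pool.Agent.HF.H24

open Pool.Agent.Glue Pool.Agent.FB Pool.Agent.CD Pool.Agent.HF
open scoped TensorProduct

noncomputable section

section hfd

variable {G : Type} [Group G] (h : HFd G)

theorem io_one : h.io 1 = 1 := by
  have := h.io_sg 1
  rwa [inv_one, map_one h.sg] at this

theorem io_inv (x : h.D) : h.io x⁻¹ = (h.io x)⁻¹ := by
  by_cases hx : x = 0
  · rw [hx, inv_zero, map_zero, inv_zero]
  · apply eq_inv_of_mul_eq_one_left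
    rw [← h.io_mul, mul_inv_cancel₀ hx, io_one]

/-- The elements on which the involution has order two. -/
def fixI : Subfield h.D where
  carrier := {x | h.io (h.io x) = x}
  mul_mem' := by
    intro a b ha hb
    have ha' : h.io (h.io a) = a := ha
    have hb' : h.io (h.io b) = b := hb
    change h.io (h.io (a * b)) = a * b
    rw [h.io_mul, h.io_mul, ha', hb']
  one_mem' := by
    change h.io (h.io 1) = 1
    rw [io_one, io_one]
  add_mem' := by
    intro a b ha hb
    have ha' : h.io (h.io a) = a := ha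
    have hb' : h.io (h.io b) = b := hb
    change h.io (h.io (a + b)) = a + b
    rw [map_add, map_add, ha', hb']
  zero_mem' := by
    change h.io (h.io 0) = 0
    rw [map_zero, map_zero]
  neg_mem' := by
    intro a ha
    have ha' : h.io (h.io a) = a := ha
    change h.io (h.io (-a)) = -a
    rw [map_neg, map_neg, ha']
  inv_mem' := by
    intro a ha
    have ha' : h.io (h.io a) = a := ha
    change h.io (h.io a⁻¹) = a⁻¹
    rw [io_inv, io_inv, ha']

theorem io_io (x : h.D) : h.io (h.io x) = x := by
  have h1 : DS h.sg Set.univ ≤ fixI h := by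
    unfold DS
    rw [Subfield.closure_le]
    rintro _ ⟨g, -, rfl⟩
    change h.io (h.io (h.sg g)) = h.sg g
    rw [h.io_sg, h.io_sg, inv_inv]
  rw [h.gen] at h1
  exact h1 (Subfield.mem_top x)

/-- The involution as a linear equivalence. -/
def ioE : h.D ≃ₗ[F2] h.D :=
  LinearEquiv.ofInvolutive (h.io.toZModLinearMap 2) (io_io h)

theorem ioE_apply (x : h.D) : ioE h x = h.io x := rfl

theorem ioE_lm (g : G) (x : h.D) : ioE h (lm h.sg g x) = rm h.sg g (ioE h x) := by
  change h.io (h.sg g * x) = h.io x * h.sg g⁻¹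
  rw [h.io_mul, h.io_sg]

include h in
theorem two_free {a : G} (ha : a * a = 1) : a = 1 := by
  by_contra hne
  have hne' : Subgroup.zpowers a ≠ ⊥ := by rwa [Ne, Subgroup.zpowers_eq_bot]
  obtain ⟨X⟩ := h.chi _ hne'
  have h1 : X.c 1 = 0 := by
    have := X.c_mul 1 (Subgroup.one_mem _) 1 (Subgroup.one_mem _)
    rw [mul_one] at this
    omega
  have h2 : X.t * X.t = 1 := by
    obtain ⟨k, hk⟩ := Subgroup.mem_zpowers_iff.1 X.t_mem
    rw [← hk, ← zpow_add, ← two_mul, zpow_mul, zpow_ofNat, pow_two, ha, one_zpow]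
  have h3 := X.c_mul X.t X.t_mem X.t X.t_mem
  rw [h2, h1, X.t_one] at h3
  omega

end hfd

theorem low (htor : TorhStmt) (hpdl : PdlStmt) (hdbl : DblStmt) (hths : ThsStmt) {G : Type}
    [Group G] (h : HFd G) {I : Type} [Fintype I] (C : Cells G I) (n : ℕ) (hC : Aspherical C)
    (hPD : PD2 C n) (i : ℕ) (hi : 2 * i < n) : CohV C (lm h.sg) i := by
  have h2 := htor G h I C hC
  have h3 : ∀ m < n, CohV C (rq h.sg) m := by
    intro m hmn
    have := hpdl G I C n hC hPD _ _ (n - m) (by omega) (h2 (n - m) (by omega))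
    rwa [show n - (n - m) = m by omega] at this
  have h4 : ∀ m < n, CohV C (Representation.tprod (lm h.sg) (lm h.sg)) m := by
    intro m hmn
    refine H92.cohV_congr C _ (rq h.sg)
      (TensorProduct.congr (ioE h) (LinearEquiv.refl F2 h.D)) ?_ (h3 m hmn)
    intro g x
    have : (TensorProduct.congr (ioE h) (LinearEquiv.refl F2 h.D)).toLinearMap ∘ₗ
        (Representation.tprod (lm h.sg) (lm h.sg)) g =
        (rq h.sg) g ∘ₗ
        (TensorProduct.congr (ioE h) (LinearEquiv.refl F2 h.D)).toLinearMap := by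
      apply TensorProduct.ext'
      intro a b
      change (TensorProduct.congr (ioE h) (LinearEquiv.refl F2 h.D))
          ((lm h.sg g a) ⊗ₜ (lm h.sg g b)) =
        (rq h.sg g) ((TensorProduct.congr (ioE h) (LinearEquiv.refl F2 h.D)) (a ⊗ₜ b))
      rw [TensorProduct.congr_tmul, TensorProduct.congr_tmul, ioE_lm]
      rfl
    exact LinearMap.congr_fun this x
  have h5 := hdbl G I C hC _ _ (n - 1) (fun m hm' => h4 m (by omega))
  refine hths G I C ?_ _ (lm h.sg) i (fun m hm' => h5 m (by omega)) i le_rfl
  intro g hg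
  exact two_free h hg

/-- MIDH -/
theorem midh (htor : TorhStmt) (hdua : DuahStmt) (hpdl : PdlStmt) (hdbl : DblStmt)
    (hths : ThsStmt) : MidhStmt := by
  intro G _ h I _ C n hC hPD i hi
  rcases lt_or_gt_of_ne hi with hlt | hgt
  · exact low htor hpdl hdbl hths h C n hC hPD i hlt
  · by_cases hin : i ≤ n
    · have h1 := low htor hpdl hdbl hths h C n hC hPD (n - i) (by omega)
      have h2 := hdua G h I C (n - i) h1
      have h3 := hpdl G I C n hC hPD _ _ (n - i) (by omega) h2
      rwa [show n - (n - i) = i by omega] at h3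
    · intro f hf _
      refine ⟨0, fun _ _ => rfl, ?_⟩
      have : f = 0 := by
        funext j
        exact hf j (by
          have := hPD.dim j
          omega)
      rw [this, map_zero]

end

end Pool.Agent.HF.H24
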